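import Pool.Agent.Work.MP_501a10_an.Main

/-!
An uncountable family of pairwise nonisomorphic simple separable unital AH algebras with the same
Elliott invariant and infinite radius of comparison.
-/

namespace Pool.Agent.Results.MP_501a10_an.Uncountable

open Pool.Agent.Work.MP_501a10_an

theorem result : ∃ A : ℝ → CStar,
    (∀ i, IsSimple (A i).carrier ∧ TopologicalSpace.SeparableSpace (A i).carrier ∧
      IsAH (A i).carrier ∧ rc (A i).carrier = ⊤) ∧
    (∀ i j, SameElliott (A i).carrier (A j).carrier) ∧
    ∀ i j, Nonempty ((A i).carrier ≃⋆ₐ[ℂ] (A j).carrier) → i = j :=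
  main

end Pool.Agent.Results.MP_501a10_an.Uncountable
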